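import Pool.Agent.TH207.Tz3

/-!
# Trapezoidal pairs: two inequalities

Conditions 1, 3, 4, 5 of the problem with a nonzero constant bracket force
`a * b ≤ m * (m - 3 * a)` and `b ≤ n - m - 2 * a`.
-/

set_option autoImplicit false

namespace Pool.Agent.Results.MP_2d59ee_ag.TwoInequalities

open MvPolynomial Pool.Agent.TH207

theorem result (a b m n : ℕ) (hm : 0 < m) (hmn : m < n) (ham : a ∣ m) (han : a ∣ n)
    (hab : Nat.gcd a b = 1) (ha : 2 ≤ a) (hlt : a < b)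
    (hex : m * m < a * b + 3 * a * m ∨ n < m + 2 * a + b)
    (F G : MvPolynomial (Fin 2) ℂ)
    (h1 : convexHull ℝ (insert ((0:ℝ), (0:ℝ))
        ((fun d : Fin 2 →₀ ℕ => ((d 0 : ℝ), (d 1 : ℝ))) '' (↑F.support : Set (Fin 2 →₀ ℕ))))
        = {p : ℝ × ℝ | 0 ≤ p.2 ∧ p.2 ≤ (n : ℝ) ∧ 0 ≤ p.1 ∧ p.1 ≤ (m : ℝ) + (n : ℝ) - p.2})
    (h3 : ∀ i : ℕ, i ≤ n →
        ((X 0 + X 1 : MvPolynomial (Fin 2) ℂ) ^ (n - i)) ∣ homogeneousComponent (m + n - i) F)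
    (h4 : convexHull ℝ (insert ((0:ℝ), (0:ℝ))
        ((fun d : Fin 2 →₀ ℕ => ((d 0 : ℝ), (d 1 : ℝ))) '' (↑G.support : Set (Fin 2 →₀ ℕ))))
        = {p : ℝ × ℝ | 0 ≤ p.2 ∧ p.2 ≤ ((b * n / a : ℕ) : ℝ) ∧ 0 ≤ p.1 ∧
            p.1 ≤ ((b * m / a : ℕ) : ℝ) + ((b * n / a : ℕ) : ℝ) - p.2})
    (h5 : ∃ c : ℂ, pderiv 0 F * pderiv 1 G - pderiv 1 F * pderiv 0 G = C c) :
    pderiv 0 F * pderiv 1 G - pderiv 1 F * pderiv 0 G = 0 := by
  obtain ⟨c, hc⟩ := h5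
  by_cases hc0 : c = 0
  · rw [hc, hc0, map_zero]
  exfalso
  obtain ⟨p, rfl⟩ := ham
  obtain ⟨q, rfl⟩ := han
  have ha0 : 0 < a := by omega
  have hp : 0 < p := Nat.pos_of_ne_zero (by rintro rfl; simp at hm)
  have hpq : p < q := Nat.lt_of_mul_lt_mul_left hmn
  have e1 : b * (a * q) / a = b * q := by
    have : b * (a * q) = b * q * a := by ring
    rw [this, Nat.mul_div_cancel _ ha0]
  have e2 : b * (a * p) / a = b * p := by
    have : b * (a * p) = b * p * a := by ring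
    rw [this, Nat.mul_div_cancel _ ha0]
  rw [e1, e2] at h4
  obtain ⟨f1, f2⟩ := Tz.hull (Nat.mul_pos ha0 (by omega)) h1
  obtain ⟨g1, g2⟩ := Tz.hull (Nat.mul_pos (by omega) (by omega)) h4
  obtain ⟨k1, k2⟩ := Tz.main ha (by omega) hab hp hpq hc0 hc f1 f2 h3
    (fun d hd => (g1 d hd).2) g2
  have haz : (0 : ℤ) < a := by exact_mod_cast ha0
  rcases hex with h6 | h6
  · have h7 : ((a * p : ℕ) : ℤ) * ((a * p : ℕ) : ℤ) < a * b + 3 * a * ((a * p : ℕ) : ℤ) := by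
      exact_mod_cast h6
    have h8 : (a : ℤ) * (a + b) ≤ a * (a * ((p : ℤ) ^ 2 - 3 * p + 1)) :=
      mul_le_mul_of_nonneg_left k1 haz.le
    push_cast at h7
    linarith
  · have h7 : ((a * q : ℕ) : ℤ) < ((a * p : ℕ) : ℤ) + 2 * a + b := by exact_mod_cast h6
    push_cast at h7
    linarith

end Pool.Agent.Results.MP_2d59ee_ag.TwoInequalities
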